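import Mathlib
import Pool.Agent.H57.SplAdd

set_option autoImplicit false

open Pool.Agent.H42.Spl

namespace Pool.Agent.Results.MP_293d80_gt.NotAdditive

/-- Under CH, `Split(Λ, Λ)` is not preserved by the union of two sets of reals. -/
theorem result (hCH : Cardinal.continuum.{0} = Cardinal.aleph 1) :
    ∃ X Y : Set ℝ, SplitL X ∧ SplitL Y ∧ ¬ SplitL (X ∪ Y : Set ℝ) :=
  Pool.Agent.H57.SplAdd.neg hCH

end Pool.Agent.Results.MP_293d80_gt.NotAdditive
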